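import Pool.Agent.Q16.SQ.Stm2

/-!
# Project SQ (helper16), job SH3: the shape with the corner matrix `K3`
-/

set_option autoImplicit false

noncomputable section

open scoped BigOperators
open Pool.Agent.Helper549.Tri

namespace Pool.Agent.Q178.SQ

open _root_.Q16.SQ

theorem t_SH3 : S_SH3 := by
  intro N ℓ θ S A κ β h hκ
  have hA0 : A 0 = 3 * θ 0 := by
    rw [h.angles, hκ]; simp [K3, Fin.sum_univ_three]
  have hA1 : A 1 = 2 * θ 1 := by
    rw [h.angles, hκ]; simp [K3, Fin.sum_univ_three]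
  have hA2 : A 2 = θ 1 := by
    rw [h.angles, hκ]; simp [K3, Fin.sum_univ_three]
  have hs := h.Asum
  rw [hA0, hA1, hA2] at hs
  have e01 : θ 0 = Real.pi / 3 - θ 1 := by linarith
  have e2 : θ 2 = Real.pi - Real.pi / 3 := by linarith [h.tsum]
  have p0 := h.tpos 0
  have p1 := h.tpos 1
  have hpi := Real.pi_pos
  have hs0 : 0 < Real.sin (θ 0) := Real.sin_pos_of_pos_of_lt_pi p0 (by linarith)
  have hs1 : 0 < Real.sin (θ 1) := Real.sin_pos_of_pos_of_lt_pi p1 (by linarith)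
  have h3 : (Real.sqrt 3) ^ 2 = 3 := Real.sq_sqrt (by norm_num)
  have h3p : 0 < Real.sqrt 3 := Real.sqrt_pos.2 (by norm_num)
  have es2 : Real.sin (θ 2) = Real.sqrt 3 / 2 := by
    rw [e2, Real.sin_pi_sub, Real.sin_pi_div_three]
  have es0 : Real.sin (θ 0) = Real.sqrt 3 / 2 * Real.cos (θ 1) - 1 / 2 * Real.sin (θ 1) := by
    rw [e01, Real.sin_sub, Real.sin_pi_div_three, Real.cos_pi_div_three]
  have hsc := Real.sin_sq_add_cos_sq (θ 1)
  have n02 := h.sinet 0 2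
  have n12 := h.sinet 1 2
  have t12 := h.sineT 1 2
  have t02 := h.sineT 0 2
  have har := h.area
  rw [hA1, hA2, Real.sin_two_mul] at t12
  rw [hA0, hA2, Real.sin_three_mul] at t02
  rw [hA2] at har
  have l0 := h.lpos 0
  have l1 := h.lpos 1
  have l2 := h.lpos 2
  have S2p := h.Spos 2
  rw [es2] at n02 n12 har
  set s0 := Real.sin (θ 0) with hs0d
  set s1 := Real.sin (θ 1) with hs1d
  set c1 := Real.cos (θ 1) with hc1d
  set w := Real.sqrt 3 with hwd
  set a := ℓ 0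
  set b := ℓ 1
  set c := ℓ 2
  -- `ρ = 2 c / w`
  obtain ⟨ρ, hρ⟩ : ∃ ρ, ρ = 2 * c / w := ⟨_, rfl⟩
  have hρp : 0 < ρ := by rw [hρ]; positivity
  have ec : c = ρ * w / 2 := by rw [hρ]; field_simp
  have ea : a = ρ * s0 := by
    rw [hρ]; field_simp; linarith
  have eb : b = ρ * s1 := by
    rw [hρ]; field_simp; linarith
  have key : s0 ^ 2 + s0 * s1 + s1 ^ 2 = 3 / 4 := by
    rw [es0]
    nlinarith [hsc, h3]
  have ec1 : w * c1 = 2 * s0 + s1 := by rw [es0]; ring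
  have eS1 : S 1 = 2 * c1 * S 2 := by
    have : s1 * S 1 = s1 * (2 * c1 * S 2) := by linarith
    exact mul_left_cancel₀ hs1.ne' this
  have eS0 : S 0 = 4 * s0 * (s0 + s1) * S 2 := by
    have e : 3 * s0 - 4 * s0 ^ 3 = 4 * s0 * (s0 + s1) * s1 := by
      linear_combination (-4 * s0) * key
    rw [e] at t02
    have : s1 * S 0 = s1 * (4 * s0 * (s0 + s1) * S 2) := by linarith
    exact mul_left_cancel₀ hs1.ne' this
  refine ⟨?_, S 2 / c ^ 2, by positivity, ?_, ?_, ?_, ?_⟩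
  · rw [ec, ea, eb]
    linear_combination (ρ ^ 2 / 4) * h3 - ρ ^ 2 * key
  · rw [eS0, ec, ea, eb]
    field_simp
    linear_combination 4 * h3
  · rw [eS1, ec, ea, eb]
    field_simp
    linear_combination ec1
  · field_simp
  · rw [eS0, eS1, ea, eb] at har
    have h5 : (N : ℝ) * (ρ ^ 2 * w) = 16 * (s0 + s1) * c1 * S 2 ^ 2 := by
      have h6 : (s0 * s1) * ((N : ℝ) * (ρ ^ 2 * w)) =
          (s0 * s1) * (16 * (s0 + s1) * c1 * S 2 ^ 2) := by linear_combination 2 * har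
      exact mul_left_cancel₀ (mul_pos hs0 hs1).ne' h6
    have h7 : (N : ℝ) * (ρ ^ 2 * w ^ 2) = 16 * (s0 + s1) * (2 * s0 + s1) * S 2 ^ 2 := by
      linear_combination w * h5 + 16 * (s0 + s1) * S 2 ^ 2 * ec1
    have h8 : (N : ℝ) = 16 * (s0 + s1) * (2 * s0 + s1) * S 2 ^ 2 / (ρ ^ 2 * w ^ 2) := by
      rw [eq_div_iff (by positivity), h7]
    rw [h8, ec, ea, eb]
    field_simp
    linear_combination 16 * h3

end Pool.Agent.Q178.SQ
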