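import Mathlib
import Pool.Agent.Q16.SQ.Stm5
import Pool.Agent.Helper549.Tri.Basic
import Pool.Agent.Helper549.Tri.Angles
set_option autoImplicit false
noncomputable section
open scoped BigOperators
open Pool.Agent.Helper549.Tri

namespace Q178.SQIMG
open Q16.SQ

theorem rt_add (M : ℕ) (k l : ℤ) : rt M (k + l) = rt M k * rt M l := by
  unfold rt
  rw [← Complex.exp_add]
  congr 1
  push_cast
  ring

theorem rt_norm (M : ℕ) (k : ℤ) : ‖rt M k‖ = 1 := by
  unfold rt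
  have : (2 * Real.pi * Complex.I * k / M : ℂ) = ((2 * Real.pi * k / M : ℝ) : ℂ) * Complex.I := by
    push_cast; ring
  rw [this, Complex.norm_exp_ofReal_mul_I]

theorem rt_two (n : ℕ) (hn : 0 < n) (x : ℤ) :
    rt (4 * n) (2 * x) = Complex.exp (((Real.pi * x / n : ℝ) : ℂ) * Complex.I) := by
  unfold rt
  have hn' : (n : ℂ) ≠ 0 := by exact_mod_cast hn.ne'
  congr 1
  push_cast
  field_simp
  ring

theorem rt_I (n : ℕ) (hn : 0 < n) : rt (4 * n) n = Complex.I := by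
  unfold rt
  have hn' : (n : ℂ) ≠ 0 := by exact_mod_cast hn.ne'
  have : (2 * Real.pi * Complex.I * ((n : ℤ) : ℂ) / ((4 * n : ℕ) : ℂ) : ℂ) =
      ((Real.pi / 2 : ℝ) : ℂ) * Complex.I := by
    push_cast
    field_simp
    ring
  rw [this, Complex.exp_mul_I, ← Complex.ofReal_cos, ← Complex.ofReal_sin, Real.cos_pi_div_two,
    Real.sin_pi_div_two]
  simp

theorem odd_of (n : ℕ) (j : ℤ) (hj : IsCoprime j ((4 * n : ℕ) : ℤ)) : Odd j := by
  have h2 : IsCoprime j 2 := by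
    apply IsCoprime.of_isCoprime_of_dvd_right hj
    exact ⟨2 * n, by push_cast; ring⟩
  rcases Int.even_or_odd j with he | ho
  · exfalso
    have h3 : IsUnit (2 : ℤ) := h2.isUnit_of_dvd' he.two_dvd (dvd_refl 2)
    rw [Int.isUnit_iff] at h3
    omega
  · exact ho

theorem rt_sq (n : ℕ) (hn : 0 < n) (j : ℤ) (hj : Odd j) :
    rt (4 * n) (j * n) * rt (4 * n) (j * n) = -1 := by
  rw [← rt_add]
  have : j * n + j * n = 2 * (j * n) := by ring
  rw [this, rt_two n hn]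
  have hn' : (n : ℝ) ≠ 0 := by exact_mod_cast hn.ne'
  obtain ⟨m, hm⟩ := hj
  have e : ((Real.pi * ((j * n : ℤ) : ℝ) / n : ℝ) : ℂ) * Complex.I =
      Real.pi * Complex.I + m * (2 * Real.pi * Complex.I) := by
    rw [hm]
    have : (Real.pi * (((2 * m + 1) * n : ℤ) : ℝ) / n : ℝ) = Real.pi * (2 * m + 1) := by
      push_cast
      field_simp
    rw [this]
    push_cast
    ring
  rw [e, Complex.exp_periodic.int_mul m (Real.pi * Complex.I), Complex.exp_pi_mul_I]

theorem delta (n : ℕ) (hn : 0 < n) (j : ℤ) (hj : Odd j) :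
    ∃ δ : ℝ, δ * δ = 1 ∧ rt (4 * n) (j * n) = (δ : ℂ) * Complex.I := by
  have h := rt_sq n hn j hj
  have h2 : (rt (4 * n) (j * n) - Complex.I) * (rt (4 * n) (j * n) + Complex.I) = 0 := by
    linear_combination h - Complex.I_sq
  rcases mul_eq_zero.1 h2 with h3 | h3
  · refine ⟨1, by norm_num, ?_⟩
    rw [sub_eq_zero.1 h3]
    simp
  · refine ⟨-1, by norm_num, ?_⟩
    rw [eq_neg_of_add_eq_zero_left h3]
    simp

theorem two_I_sin (x : ℝ) : Complex.exp ((x : ℂ) * Complex.I) - Complex.exp (((-x : ℝ) : ℂ) * Complex.I) =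
    2 * (Complex.I * (Real.sin x : ℂ)) := by
  rw [Complex.exp_mul_I, Complex.exp_mul_I]
  push_cast
  rw [Complex.cos_neg, Complex.sin_neg]
  ring

section
variable {n : ℕ} {j : ℤ} {Φ : ℂ → ℂ}

theorem phi_zero (hΦ : Semi (4 * n) j Φ) : Φ 0 = 0 := by
  have h := hΦ.1 0 0
  rw [add_zero] at h
  exact left_eq_add.1 h

theorem phi_neg (hΦ : Semi (4 * n) j Φ) (z : ℂ) : Φ (-z) = - Φ z := by
  have h := hΦ.1 (-z) z
  rw [neg_add_cancel, phi_zero hΦ] at h
  exact eq_neg_of_add_eq_zero_left h.symm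

theorem phi_sub (hΦ : Semi (4 * n) j Φ) (z w : ℂ) : Φ (z - w) = Φ z - Φ w := by
  rw [sub_eq_add_neg, hΦ.1, phi_neg hΦ, sub_eq_add_neg]

theorem phi_sin (hn : 0 < n) (hΦ : Semi (4 * n) j Φ) (δ : ℝ) (hδ : δ * δ = 1)
    (hE : rt (4 * n) (j * n) = (δ : ℂ) * Complex.I) (x : ℕ) (z : ℂ) :
    Φ ((Real.sin (Real.pi * x / n) : ℂ) * z) = ((δ * Real.sin (Real.pi * (j * x) / n) : ℝ) : ℂ) * Φ z := by
  set s := Real.sin (Real.pi * x / n) with hs
  have h1 : rt (4 * n) (2 * x) * z - rt (4 * n) (2 * (-x)) * z =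
      rt (4 * n) n * ((s : ℂ) * z) + rt (4 * n) n * ((s : ℂ) * z) := by
    rw [rt_two n hn, rt_two n hn, rt_I n hn, ← sub_mul]
    have e : (Real.pi * ((-x : ℤ) : ℝ) / n : ℝ) = - (Real.pi * ((x : ℤ) : ℝ) / n) := by
      push_cast; ring
    rw [e, two_I_sin]
    rw [hs]
    push_cast
    ring
  have h2 := congrArg Φ h1
  rw [phi_sub hΦ, hΦ.1, hΦ.2.2.1, hΦ.2.2.1, hΦ.2.2.1, ← sub_mul] at h2
  have e1 : j * (2 * (x : ℤ)) = 2 * (j * x) := by ring
  have e2 : j * (2 * (-(x : ℤ))) = 2 * (-(j * x)) := by ring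
  rw [e1, e2, rt_two n hn, rt_two n hn] at h2
  have e : (Real.pi * ((-(j * x) : ℤ) : ℝ) / n : ℝ) = - (Real.pi * ((j * x : ℤ) : ℝ) / n) := by
    push_cast; ring
  rw [e, two_I_sin, hE] at h2
  have hδ' : (δ : ℂ) * δ = 1 := by exact_mod_cast hδ
  have e5 : Real.sin (Real.pi * ((j * x : ℤ) : ℝ) / n) = Real.sin (Real.pi * (j * x) / n) := by
    push_cast; rfl
  rw [e5] at h2
  have h3 : Complex.I * ((Real.sin (Real.pi * (j * x) / n) : ℂ) * Φ z) =
      Complex.I * ((δ : ℂ) * Φ ((s : ℂ) * z)) := by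
    have h4 : (2 : ℂ) * (Complex.I * ((Real.sin (Real.pi * (j * x) / n) : ℂ) * Φ z)) =
      2 * (Complex.I * ((δ : ℂ) * Φ ((s : ℂ) * z))) := by
      linear_combination h2
    exact mul_left_cancel₀ two_ne_zero h4
  have h4 := mul_left_cancel₀ Complex.I_ne_zero h3
  push_cast
  push_cast at h4
  calc Φ ((s : ℂ) * z) = ((δ : ℂ) * δ) * Φ ((s : ℂ) * z) := by rw [hδ', one_mul]
    _ = (δ : ℂ) * ((δ : ℂ) * Φ ((s : ℂ) * z)) := by ring
    _ = _ := by rw [← h4]; ring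

end

theorem vf_pos (n : ℕ) (j : ℤ) (x : ℕ) (hx : 0 < x) (hxn : x < n) (hj : IsCoprime j ((4 * n : ℕ) : ℤ)) :
    0 < vf n j x := by
  unfold vf
  rcases (Int.fract_nonneg ((j : ℝ) * x / n)).lt_or_eq with h | h
  · exact h
  · exfalso
    have hn' : (n : ℝ) ≠ 0 := by exact_mod_cast (by omega : n ≠ 0)
    have h2 : (j : ℝ) * x / n = ⌊(j : ℝ) * x / n⌋ := by
      have := Int.floor_add_fract ((j : ℝ) * x / n)
      rw [← h, add_zero] at this
      exact this.symm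
    rw [div_eq_iff hn'] at h2
    have h3 : j * x = ⌊(j : ℝ) * x / n⌋ * n := by exact_mod_cast h2
    have h4 : (n : ℤ) ∣ j * x := ⟨⌊(j : ℝ) * x / n⌋, by rw [h3]; ring⟩
    have h5 : IsCoprime (n : ℤ) j := by
      apply IsCoprime.symm
      apply IsCoprime.of_isCoprime_of_dvd_right hj
      exact ⟨4, by push_cast; ring⟩
    have h6 : (n : ℤ) ∣ x := h5.dvd_of_dvd_mul_left h4
    have h7 : n ∣ x := by exact_mod_cast h6
    exact absurd (Nat.le_of_dvd hx h7) (by omega)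

theorem exp_vf (n : ℕ) (j : ℤ) (x : ℕ) :
    Complex.exp (((Real.pi * (j * x) / n : ℝ) : ℂ) * Complex.I) =
      (((-1 : ℝ) ^ ⌊(j : ℝ) * x / n⌋ : ℝ) : ℂ) * Complex.exp (((Real.pi * vf n j x : ℝ) : ℂ) * Complex.I) := by
  have h := Int.floor_add_fract ((j : ℝ) * x / n)
  unfold vf
  set f := ⌊(j : ℝ) * x / n⌋ with hf
  have e : (Real.pi * (j * x) / n : ℝ) = f * Real.pi + Real.pi * Int.fract ((j : ℝ) * x / n) := by
    have : (Real.pi * (j * x) / n : ℝ) = Real.pi * ((j : ℝ) * x / n) := by ring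
    rw [this]
    nth_rewrite 1 [← h]
    ring
  rw [e]
  have e2 : ((f * Real.pi + Real.pi * Int.fract ((j : ℝ) * x / n) : ℝ) : ℂ) * Complex.I =
      f * (Real.pi * Complex.I) + ((Real.pi * Int.fract ((j : ℝ) * x / n) : ℝ) : ℂ) * Complex.I := by
    push_cast; ring
  rw [e2, Complex.exp_add, Complex.exp_int_mul, Complex.exp_pi_mul_I]
  push_cast
  rfl

theorem sin_vf (n : ℕ) (j : ℤ) (x : ℕ) :
    Real.sin (Real.pi * (j * x) / n) = (-1 : ℝ) ^ ⌊(j : ℝ) * x / n⌋ * Real.sin (Real.pi * vf n j x) := by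
  have h := congrArg Complex.im (exp_vf n j x)
  rw [Complex.exp_ofReal_mul_I_im, Complex.im_ofReal_mul, Complex.exp_ofReal_mul_I_im] at h
  exact h

theorem core {n : ℕ} (hn : 0 < n) (v : Fin 3 → ℂ) (hv : 0 < dd v) (g : Fin 3 → ℕ)
    (hg : ∀ k, 0 < g k) (hsum : ∀ k, g k + g (k + 1) + g (k + 2) = n)
    (hlen : ∀ m, len v m = Real.sin (Real.pi * g m / n))
    (hang : ∀ m, ang v m = Real.pi * g m / n)
    (hdir : ∀ k, ∃ q : ℤ, dir v k = rt (4 * n) q) (j : ℤ) (Φ : ℂ → ℂ)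
    (hj : IsCoprime j ((4 * n : ℕ) : ℤ)) (hΦ : Semi (4 * n) j Φ)
    (h1 : ∀ k, vf n j (g k) + vf n j (g (k + 1)) + vf n j (g (k + 2)) = 1) (k : Fin 3) :
    0 < cr (Φ (v (k + 1)) - Φ (v k)) (Φ (v (k + 2)) - Φ (v k)) ∧
    InnerProductGeometry.angle (Φ (v (k + 1)) - Φ (v k)) (Φ (v (k + 2)) - Φ (v k)) =
      Real.pi * vf n j (g k) := by
  have hn' : (n : ℝ) ≠ 0 := by exact_mod_cast hn.ne'
  obtain ⟨δ, hδ, hE⟩ := delta n hn j (odd_of n j hj)
  have hlt : ∀ m, g m < n := by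
    intro m
    have := hsum m
    have := hg (m + 1)
    omega
  have hvp : ∀ m, 0 < vf n j (g m) := fun m => vf_pos n j (g m) (hg m) (hlt m) hj
  have hsp : ∀ m, 0 < Real.sin (Real.pi * vf n j (g m)) := by
    intro m
    apply Real.sin_pos_of_pos_of_lt_pi
    · exact mul_pos Real.pi_pos (hvp m)
    · have : vf n j (g m) < 1 := Int.fract_lt_one _
      have := mul_lt_mul_of_pos_left this Real.pi_pos
      linarith
  -- the direction
  obtain ⟨q, hq⟩ := hdir (k + 1)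
  set D : ℂ := Φ (dir v (k + 1)) with hD
  have hD1 : ‖D‖ = 1 := by
    rw [hD, hq]
    have := hΦ.2.2.1 q 1
    rw [mul_one, hΦ.2.2.2.2, mul_one] at this
    rw [this, rt_norm]
  have hside : ∀ m, Φ (sd v m) = ((δ * Real.sin (Real.pi * (j * g m) / n) : ℝ) : ℂ) * Φ (dir v m) := by
    intro m
    rw [Basic.sd_eq v hv m, hlen m]
    exact phi_sin hn hΦ δ hδ hE (g m) (dir v m)
  have hB : Φ (v (k + 2)) - Φ (v k) =
      -(((δ * Real.sin (Real.pi * (j * g (k + 1)) / n) : ℝ) : ℂ) * D) := by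
    rw [← phi_sub hΦ, ← hside (k + 1), Angles.aux_sd1, phi_neg hΦ, neg_neg]
  have hrel : Φ (dir v (k + 2)) =
      - (Complex.exp (((-(Real.pi * (j * g k) / n) : ℝ) : ℂ) * Complex.I) * D) := by
    rw [Angles.dir_rel v hv k, hang k]
    have e : - Complex.exp (-((Real.pi * g k / n : ℝ) : ℂ) * Complex.I) * dir v (k + 1) =
        - (rt (4 * n) (2 * (-(g k : ℤ))) * dir v (k + 1)) := by
      rw [rt_two n hn]
      have : (Real.pi * ((-(g k : ℤ) : ℤ) : ℝ) / n : ℝ) = -(Real.pi * g k / n) := by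
        push_cast; ring
      rw [this]
      push_cast
      ring
    rw [e, phi_neg hΦ, hΦ.2.2.1]
    have e2 : j * (2 * (-(g k : ℤ))) = 2 * (-(j * g k)) := by ring
    rw [e2, rt_two n hn]
    have e3 : (Real.pi * ((-(j * (g k : ℤ)) : ℤ) : ℝ) / n : ℝ) = -(Real.pi * (j * g k) / n) := by
      push_cast; ring
    rw [e3]
  have hA : Φ (v (k + 1)) - Φ (v k) =
      -(((δ * Real.sin (Real.pi * (j * g (k + 2)) / n) : ℝ) : ℂ) *
        (Complex.exp (((-(Real.pi * (j * g k) / n) : ℝ) : ℂ) * Complex.I) * D)) := by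
    rw [← phi_sub hΦ, ← Angles.aux_sd2, hside (k + 2), hrel]
    ring
  -- parity
  set f : Fin 3 → ℤ := fun m => ⌊(j : ℝ) * g m / n⌋ with hf
  have hfsum : f k + f (k + 1) + f (k + 2) = j - 1 := by
    have a0 := Int.floor_add_fract ((j : ℝ) * g k / n)
    have a1 := Int.floor_add_fract ((j : ℝ) * g (k + 1) / n)
    have a2 := Int.floor_add_fract ((j : ℝ) * g (k + 2) / n)
    have b := h1 k
    unfold vf at b
    have c : (j : ℝ) * g k / n + (j : ℝ) * g (k + 1) / n + (j : ℝ) * g (k + 2) / n = j := by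
      have h0 : (g k : ℝ) + g (k + 1) + g (k + 2) = n := by exact_mod_cast hsum k
      rw [← add_div, ← add_div, ← mul_add, ← mul_add, h0]
      field_simp
    have d : ((f k + f (k + 1) + f (k + 2) : ℤ) : ℝ) = ((j - 1 : ℤ) : ℝ) := by
      push_cast
      simp only [hf]
      linarith
    exact_mod_cast d
  have hpar : (-1 : ℝ) ^ f k * (-1 : ℝ) ^ f (k + 1) * (-1 : ℝ) ^ f (k + 2) = 1 := by
    rw [← zpow_add₀ (by norm_num), ← zpow_add₀ (by norm_num), hfsum]
    have : Even (j - 1) := (odd_of n j hj).sub_odd odd_one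
    exact this.neg_one_zpow
  have hsqs : ∀ m, (-1 : ℝ) ^ f m * (-1 : ℝ) ^ f m = 1 := by
    intro m
    rw [← zpow_add₀ (by norm_num)]
    exact (Even.add_self (f m)).neg_one_zpow
  set r : ℝ := Real.sin (Real.pi * vf n j (g (k + 1))) / Real.sin (Real.pi * vf n j (g (k + 2))) with hr
  have hrp : 0 < r := div_pos (hsp _) (hsp _)
  set θ : ℝ := Real.pi * vf n j (g k) with hθ
  set A := Φ (v (k + 1)) - Φ (v k) with hAdef
  set B := Φ (v (k + 2)) - Φ (v k) with hBdef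
  have hBA : B = ((r : ℂ) * Complex.exp ((θ : ℂ) * Complex.I)) * A := by
    rw [hA, hB, sin_vf n j (g (k + 1)), sin_vf n j (g (k + 2))]
    have e1 : Complex.exp (((-(Real.pi * (j * g k) / n) : ℝ) : ℂ) * Complex.I) =
        (((-1 : ℝ) ^ f k : ℝ) : ℂ) * Complex.exp (-((θ : ℂ) * Complex.I)) := by
      have e3 := exp_vf n j (g k)
      have e4 : ((-(Real.pi * (j * g k) / n) : ℝ) : ℂ) * Complex.I =
        -(((Real.pi * (j * g k) / n : ℝ) : ℂ) * Complex.I) := by push_cast; ring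
      rw [e4, Complex.exp_neg, e3, mul_inv, ← Complex.exp_neg]
      congr 1
      have := hsqs k
      have h5 : ((((-1 : ℝ) ^ f k : ℝ) : ℂ)) * (((-1 : ℝ) ^ f k : ℝ) : ℂ) = 1 := by
        rw [← Complex.ofReal_mul, this, Complex.ofReal_one]
      exact inv_eq_of_mul_eq_one_left h5
    rw [e1]
    have e5 : Complex.exp ((θ : ℂ) * Complex.I) * Complex.exp (-((θ : ℂ) * Complex.I)) = 1 := by
      rw [← Complex.exp_add, add_neg_cancel, Complex.exp_zero]
    have e6 : r * Real.sin (Real.pi * vf n j (g (k + 2))) = Real.sin (Real.pi * vf n j (g (k + 1))) := by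
      rw [hr]; exact div_mul_cancel₀ _ (hsp _).ne'
    have e7 : (-1 : ℝ) ^ f (k + 1) = (-1 : ℝ) ^ f k * (-1 : ℝ) ^ f (k + 2) := by
      have := hsqs (k + 1)
      calc (-1 : ℝ) ^ f (k + 1) = (-1 : ℝ) ^ f (k + 1) *
            ((-1 : ℝ) ^ f k * (-1 : ℝ) ^ f (k + 1) * (-1 : ℝ) ^ f (k + 2)) := by rw [hpar, mul_one]
        _ = ((-1 : ℝ) ^ f (k + 1) * (-1 : ℝ) ^ f (k + 1)) *
            ((-1 : ℝ) ^ f k * (-1 : ℝ) ^ f (k + 2)) := by ring
        _ = _ := by rw [this, one_mul]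
    have e8 : δ * ((-1 : ℝ) ^ f (k + 1) * Real.sin (Real.pi * vf n j (g (k + 1)))) =
        r * (-1 : ℝ) ^ f k * (δ * ((-1 : ℝ) ^ f (k + 2) * Real.sin (Real.pi * vf n j (g (k + 2))))) := by
      rw [e7, ← e6]; ring
    change -(((δ * ((-1 : ℝ) ^ f (k + 1) * Real.sin (Real.pi * vf n j (g (k + 1)))) : ℝ) : ℂ) * D) = _
    rw [e8]
    change _ = (r : ℂ) * Complex.exp ((θ : ℂ) * Complex.I) *
      -(((δ * ((-1 : ℝ) ^ f (k + 2) * Real.sin (Real.pi * vf n j (g (k + 2)))) : ℝ) : ℂ) *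
        ((((-1 : ℝ) ^ f k : ℝ) : ℂ) * Complex.exp (-((θ : ℂ) * Complex.I)) * D))
    generalize δ * ((-1 : ℝ) ^ f (k + 2) * Real.sin (Real.pi * vf n j (g (k + 2)))) = X
    generalize (-1 : ℝ) ^ f k = Y
    push_cast
    linear_combination ((r : ℂ) * Y * X * D) * e5
  have hA0 : A ≠ 0 := by
    intro h0
    have := hAdef.symm.trans h0
    rw [sub_eq_zero] at this
    have hv2 := hΦ.2.1 this
    have hinj := Basic.vertex_inj v hv hv2
    revert hinj
    fin_cases k <;> decide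
  have hθ1 : 0 < θ := mul_pos Real.pi_pos (hvp k)
  have hθ2 : θ < Real.pi := by
    have : vf n j (g k) < 1 := Int.fract_lt_one _
    have := mul_lt_mul_of_pos_left this Real.pi_pos
    rw [hθ]
    linarith
  constructor
  · have h5 : cr A B = r * Real.sin θ * (A.re ^ 2 + A.im ^ 2) := by
      rw [hBA]
      unfold cr
      rw [Complex.exp_mul_I, ← Complex.ofReal_cos, ← Complex.ofReal_sin]
      simp only [Complex.mul_re, Complex.mul_im, Complex.add_re, Complex.add_im, Complex.ofReal_re,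
        Complex.ofReal_im, Complex.I_re, Complex.I_im]
      ring
    rw [h5]
    have h6 : 0 < A.re ^ 2 + A.im ^ 2 := by
      have := Complex.normSq_pos.2 hA0
      rw [Complex.normSq_apply] at this
      nlinarith
    exact mul_pos (mul_pos hrp (hsp k)) h6
  · have hB0 : B ≠ 0 := by
      rw [hBA]
      exact mul_ne_zero (mul_ne_zero (by exact_mod_cast hrp.ne') (Complex.exp_ne_zero _)) hA0
    rw [InnerProductGeometry.angle_comm, Complex.angle_eq_abs_arg hB0 hA0]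
    have h7 : B / A = (r : ℂ) * Complex.exp ((θ : ℂ) * Complex.I) := by
      rw [hBA, mul_div_assoc, div_self hA0, mul_one]
    rw [h7, Complex.arg_real_mul _ hrp, Complex.exp_mul_I, Complex.arg_cos_add_sin_mul_I ⟨by linarith, hθ2.le⟩]
    exact abs_of_pos hθ1

theorem t_IMG : S_IMG := by
  intro N T t τ n a hD j Φ hj hΦ h1
  obtain ⟨hDis, hn, hapos, hasum, hlen, hang, hdir, hdirT⟩ := hD
  have key : ∀ i, ∀ k, 0 < cr (Φ (t i (k + 1)) - Φ (t i k)) (Φ (t i (k + 2)) - Φ (t i k)) ∧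
    InnerProductGeometry.angle (Φ (t i (k + 1)) - Φ (t i k)) (Φ (t i (k + 2)) - Φ (t i k)) =
      Real.pi * vf n j (a (τ i k)) := by
    intro i
    have hsum : ∀ F : Fin 3 → ℕ, ∀ k : Fin 3, F (τ i k) + F (τ i (k + 1)) + F (τ i (k + 2)) = F 0 + F 1 + F 2 := by
      intro F k
      have h := Equiv.sum_comp (τ i) F
      rw [Fin.sum_univ_three, Fin.sum_univ_three] at h
      rw [← h]
      fin_cases k
      · rfl
      · show F (τ i 1) + F (τ i 2) + F (τ i 0) = _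
        ring
      · show F (τ i 2) + F (τ i 0) + F (τ i 1) = _
        ring
    have hsumR : ∀ F : Fin 3 → ℝ, ∀ k : Fin 3, F (τ i k) + F (τ i (k + 1)) + F (τ i (k + 2)) = F 0 + F 1 + F 2 := by
      intro F k
      have h := Equiv.sum_comp (τ i) F
      rw [Fin.sum_univ_three, Fin.sum_univ_three] at h
      rw [← h]
      fin_cases k
      · rfl
      · show F (τ i 1) + F (τ i 2) + F (τ i 0) = _
        ring
      · show F (τ i 2) + F (τ i 0) + F (τ i 1) = _
        ring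
    exact core hn (t i) (hDis.ccwt i) (fun m => a (τ i m)) (fun k => hapos _)
      (fun k => (hsum a k).trans hasum) (fun m => hlen i m) (fun m => hang i m) (fun k => hdir i k) j Φ hj hΦ
      (fun k => (hsumR (fun m => vf n j (a m)) k).trans h1)
  constructor
  · intro i
    exact (key i 0).1
  · intro i m
    rw [Angles.aux_ang]
    exact (key i m).2

end Q178.SQIMG
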