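import Pool.Agent.Q17.ML2.Stm
import Pool.Agent.TH365.J3099

/-!
# Project CA (helper17), job DG: degrees for fields with group `H` acting as on `H ⧸ W`
-/

set_option autoImplicit false

open Pool.Agent.TH444.ML (Gal)
open Pool.Agent.TH365.J3099 Pool.Agent.Q17.ML2 IntermediateField

namespace Pool.Agent.Q178.CA

theorem exists_ext {K Ω : Type} [Field K] [Field Ω] [Algebra K Ω] [Normal K Ω]
    {M : IntermediateField K Ω} (φ : M →ₐ[K] Ω) : ∃ σ : Ω ≃ₐ[K] Ω, act M σ M.val = φ := by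
  refine ⟨AlgEquiv.ofBijective (φ.liftNormal Ω) (AlgHom.normal_bijective K Ω Ω _), ?_⟩
  ext x
  rw [act_apply_apply]
  exact AlgHom.liftNormal_commutes φ Ω x

section

variable {K Ω : Type} [Field K] [CharZero K] [Field Ω] [Algebra K Ω] [IsAlgClosure K Ω]
variable {H : Type} [Group H]

theorem toPerm_inj (W : Subgroup H) (hW : W.normalCore = ⊥) :
    Function.Injective (MulAction.toPermHom H (H ⧸ W)) := by
  rw [← MonoidHom.ker_eq_bot_iff, ← Subgroup.normalCore_eq_ker]
  exact hW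

/-- first part -/
theorem part1 (W : Subgroup H) (hW : W.normalCore = ⊥) (M : IntermediateField K Ω)
    (hM : M ∈ GalS K Ω H W) : Module.finrank K M = W.index ∧
      Module.finrank K (IntermediateField.normalClosure K M Ω) = Nat.card H ∧
      IntermediateField.normalClosure K M Ω ∈ Gal K Ω H := by
  obtain ⟨hfd, e, he⟩ := hM
  have i1 : IsAlgClosed Ω := IsAlgClosure.isAlgClosed K
  have i2 : Normal K Ω := IsAlgClosure.normal K Ω
  have i3 : Algebra.IsAlgebraic K Ω := IsAlgClosure.isAlgebraic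
  have i4 : Algebra.IsSeparable K Ω := inferInstance
  have i5 : IsGalois K Ω := ⟨⟩
  have hinj := toPerm_inj W hW
  have hcX : Nat.card (M →ₐ[K] Ω) = Module.finrank K M := by
    rw [← AlgHom.card K M Ω, Nat.card_eq_fintype_card]
  have hidx : Module.finrank K M = W.index := by
    rw [← hcX, Subgroup.index]
    exact Nat.card_congr e
  have himP : imP M e = ((MulAction.toPermHom H (H ⧸ W)).range : Set (Equiv.Perm (H ⧸ W))) := by
    ext π
    constructor
    · intro hπ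
      obtain ⟨h, hh⟩ := (he π).2 hπ
      exact ⟨h, Equiv.ext fun x => (hh x).symm⟩
    · rintro ⟨h, rfl⟩
      exact (he _).1 ⟨h, fun x => rfl⟩
  have hcard : Module.finrank K (IntermediateField.normalClosure K M Ω) = Nat.card H := by
    rw [← ncard_imP M e, himP]
    have h1 : Nat.card (MulAction.toPermHom H (H ⧸ W)).range = Nat.card H :=
      Nat.card_congr (MonoidHom.ofInjective hinj).toEquiv.symm
    rw [← h1]
    rfl
  refine ⟨hidx, hcard, ?_⟩
  have hN1 : FiniteDimensional K (IntermediateField.normalClosure K M Ω) := inferInstance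
  have hN2 : IsGalois K (IntermediateField.normalClosure K M Ω) := by constructor
  refine ⟨hN1, hN2, ?_⟩
  let F : (Ω ≃ₐ[K] Ω) →* Equiv.Perm (H ⧸ W) := e.permCongrHom.toMonoidHom.comp (act M)
  have hFker : F.ker = (act M).ker := by
    ext σ
    rw [MonoidHom.mem_ker, MonoidHom.mem_ker]
    change e.permCongrHom (act M σ) = 1 ↔ _
    rw [map_eq_one_iff _ e.permCongrHom.injective]
  have hFrange : F.range = (MulAction.toPermHom H (H ⧸ W)).range := by
    apply SetLike.coe_injective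
    rw [← himP, imP_eq]
    ext π
    constructor
    · rintro ⟨σ, rfl⟩
      exact ⟨act M σ, ⟨σ, rfl⟩, rfl⟩
    · rintro ⟨_, ⟨σ, rfl⟩, rfl⟩
      exact ⟨σ, rfl⟩
  have hk : (AlgEquiv.restrictNormalHom (F := K) (K₁ := Ω)
      (IntermediateField.normalClosure K M Ω)).ker = F.ker := by
    rw [hFker, ker_act]
    exact restrictNormalHom_ker _
  have hs : Function.Surjective (AlgEquiv.restrictNormalHom (F := K) (K₁ := Ω)
      (IntermediateField.normalClosure K M Ω)) :=
    AlgEquiv.restrictNormalHom_surjective Ω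
  exact ⟨((((QuotientGroup.quotientKerEquivOfSurjective _ hs).symm.trans
      (QuotientGroup.quotientMulEquivOfEq hk)).trans
      (QuotientGroup.quotientKerEquivRange F)).trans
      (MulEquiv.subgroupCongr hFrange)).trans
      (MonoidHom.ofInjective hinj).symm⟩

/-- second part -/
theorem part2 (W : Subgroup H) (N : IntermediateField K Ω) (hN : N ∈ Gal K Ω H) :
    (GalS K Ω H W).Nonempty := by
  obtain ⟨hNfd, hNgal, ⟨g⟩⟩ := hN
  have i1 : IsAlgClosed Ω := IsAlgClosure.isAlgClosed K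
  have i2 : Normal K Ω := IsAlgClosure.normal K Ω
  have i3 : Algebra.IsAlgebraic K Ω := IsAlgClosure.isAlgebraic
  have i4 : Algebra.IsSeparable K Ω := inferInstance
  have i5 : IsGalois K Ω := ⟨⟩
  let ρ : (Ω ≃ₐ[K] Ω) →* H :=
    g.toMonoidHom.comp (AlgEquiv.restrictNormalHom (F := K) (K₁ := Ω) N)
  have hρs : Function.Surjective ρ :=
    g.surjective.comp (AlgEquiv.restrictNormalHom_surjective Ω)
  have hρk : N.fixingSubgroup ≤ ρ.ker := by
    intro σ hσ
    rw [← restrictNormalHom_ker N, MonoidHom.mem_ker] at hσ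
    rw [MonoidHom.mem_ker]
    change g (AlgEquiv.restrictNormalHom (F := K) (K₁ := Ω) N σ) = 1
    rw [hσ, map_one]
  obtain ⟨U, hU⟩ : ∃ U : Subgroup (Ω ≃ₐ[K] Ω), U = W.comap ρ := ⟨_, rfl⟩
  have hNU : N.fixingSubgroup ≤ U := by
    intro σ hσ
    rw [hU, Subgroup.mem_comap, MonoidHom.mem_ker.1 (hρk hσ)]
    exact W.one_mem
  have hopen : IsOpen (U : Set (Ω ≃ₐ[K] Ω)) :=
    Subgroup.isOpen_mono hNU N.fixingSubgroup_isOpen
  have hclosed : IsClosed (U : Set (Ω ≃ₐ[K] Ω)) := Subgroup.isClosed_of_isOpen _ hopen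
  obtain ⟨M, hMdef⟩ : ∃ M, M = fixedField U := ⟨_, rfl⟩
  have hM : M.fixingSubgroup = U := by
    rw [hMdef]
    exact InfiniteGalois.fixingSubgroup_fixedField ⟨U, hclosed⟩
  have hMfd : FiniteDimensional K M := by
    rw [← InfiniteGalois.isOpen_iff_finite, hM]
    exact hopen
  let r : (Ω ≃ₐ[K] Ω) → (M →ₐ[K] Ω) := fun σ => act M σ M.val
  have hr0 : ∀ (σ : Ω ≃ₐ[K] Ω) (x : M), r σ x = σ x := fun σ x => rfl
  have hrs : Function.Surjective r := by
    intro φ
    obtain ⟨σ, hσ⟩ := exists_ext φ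
    exact ⟨σ, hσ⟩
  let f : (Ω ≃ₐ[K] Ω) → H ⧸ W := fun σ => (ρ σ : H ⧸ W)
  have hfs : Function.Surjective f := by
    intro x
    obtain ⟨h, rfl⟩ := QuotientGroup.mk_surjective x
    obtain ⟨σ, rfl⟩ := hρs h
    exact ⟨σ, rfl⟩
  have hrf : ∀ σ τ, r σ = r τ ↔ f σ = f τ := by
    intro σ τ
    have h1 : f σ = f τ ↔ σ⁻¹ * τ ∈ M.fixingSubgroup := by
      rw [hM, hU, Subgroup.mem_comap, map_mul, map_inv]
      exact QuotientGroup.eq
    rw [h1, IntermediateField.mem_fixingSubgroup_iff]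
    constructor
    · intro h x hx
      have h2 := DFunLike.congr_fun h ⟨x, hx⟩
      rw [hr0, hr0] at h2
      change σ⁻¹ (τ x) = x
      rw [← h2]
      exact σ.symm_apply_apply x
    · intro h
      ext x
      rw [hr0, hr0]
      have h2 := h x x.2
      change σ⁻¹ (τ x) = x at h2
      have h3 : σ (σ⁻¹ (τ x)) = τ x := σ.apply_symm_apply (τ x)
      rw [← h3, h2]
  choose s hs using hrs
  have hbij : Function.Bijective (fun φ => f (s φ)) := by
    constructor
    · intro φ ψ h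
      have h1 := (hrf _ _).2 h
      rw [hs, hs] at h1
      exact h1
    · intro x
      obtain ⟨σ, rfl⟩ := hfs x
      refine ⟨r σ, ?_⟩
      exact (hrf _ _).1 (hs _)
  let e : (M →ₐ[K] Ω) ≃ H ⧸ W := Equiv.ofBijective _ hbij
  have her : ∀ σ, e (r σ) = f σ := fun σ => (hrf _ _).1 (hs _)
  have hmul : ∀ σ τ : Ω ≃ₐ[K] Ω, σ.toAlgHom.comp (r τ) = r (σ * τ) := fun σ τ => rfl
  refine ⟨M, hMfd, e, fun π => ?_⟩
  have key : ∀ (σ : Ω ≃ₐ[K] Ω) (φ : M →ₐ[K] Ω), e (σ.toAlgHom.comp φ) = ρ σ • e φ := by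
    intro σ φ
    obtain ⟨τ, rfl⟩ : ∃ τ, r τ = φ := ⟨s φ, hs φ⟩
    rw [hmul, her, her]
    change ((ρ (σ * τ) : H) : H ⧸ W) = ρ σ • ((ρ τ : H) : H ⧸ W)
    rw [map_mul]
    rfl
  constructor
  · rintro ⟨h, hh⟩
    obtain ⟨σ, rfl⟩ := hρs h
    exact ⟨σ, fun φ => by rw [key, hh]⟩
  · rintro ⟨σ, hσ⟩
    refine ⟨ρ σ, fun x => ?_⟩
    obtain ⟨φ, rfl⟩ := e.surjective x
    rw [← hσ, key]

end

/-- job DG -/
theorem t_DG : S_DG := by
  intro K Ω _ _ _ _ _ H _ _ W hW
  refine ⟨fun M hM => part1 W hW M hM, ?_⟩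
  rintro ⟨N, hN⟩
  exact part2 W N hN

end Pool.Agent.Q178.CA
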