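import Pool.Agent.Q61.MH.Stm

/-!
# Project MH (helper61), job JUMP: the jump moment of the stationary chain
-/

set_option autoImplicit false

open Real

noncomputable section

namespace Pool.Agent.Q178.MHJ

open Pool.Agent.Q61.MH

theorem mul_min_one {a b : ℝ} (ha : 0 ≤ a) (hb : 0 ≤ b) : a * min 1 (b / a) = min a b := by
  rcases eq_or_lt_of_le ha with h | h
  · rw [← h]
    simp [hb]
  · rw [mul_min_of_nonneg _ _ ha, mul_one, mul_div_cancel₀ _ h.ne']

theorem term {q φ : ℤ → ℝ} {r : ℝ} (hq : IsTarget q) (hr : 0 < r) (x z : ℤ) :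
    q x * kernel q φ x (x + z) * |((x + z : ℤ) : ℝ) - x| ^ r =
      φ z * |(z : ℝ)| ^ r * min (q x) (q (x + z)) := by
  rcases eq_or_ne z 0 with h | h
  · subst h
    simp [Real.zero_rpow hr.ne']
  · have h1 : x + z ≠ x := by omega
    have h2 : ((x + z : ℤ) : ℝ) - x = z := by push_cast; ring
    rw [kernel, if_neg h1, h2, add_sub_cancel_left, ← mul_min_one (hq.nonneg x) (hq.nonneg (x + z))]
    ring

theorem jumpf : S_jump := by
  intro q φ r hq hφ hr
  have e : jump r q φ = ∑' x : ℤ, ∑' z : ℤ, ENNReal.ofReal (φ z * |(z : ℝ)| ^ r) *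
      ENNReal.ofReal (min (q x) (q (x + z))) := by
    unfold jump
    refine tsum_congr fun x => ?_
    rw [← (Equiv.addLeft x).tsum_eq]
    refine tsum_congr fun z => ?_
    rw [Equiv.coe_addLeft, term hq hr, ENNReal.ofReal_mul]
    exact mul_nonneg (hφ.nonneg z) (by positivity)
  rw [e, ENNReal.tsum_comm]
  exact tsum_congr fun z => ENNReal.tsum_mul_left

end Pool.Agent.Q178.MHJ
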