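import Pool.Agent.Q88.MT.Stm3

/-!
# Project MT (helper88), job CON: half planes containing the symbol contain the spectrum
-/

set_option autoImplicit false

open Set Filter Topology

noncomputable section

namespace Pool.Agent.Q178.MTCON

open Pool.Agent.Q88.MT

/-- the Hilbert space -/
abbrev E (n : ℕ) := lp (fun _ : X n => ℂ) 2

theorem mem_iff {n : ℕ} (u : X n → ℂ) : Memℓp u 2 ↔ Sq u := by
  rw [memℓp_gen_iff (by norm_num)]
  simp [Sq]

theorem norm_eq {n : ℕ} (f : E n) : ‖f‖ = nn (f : X n → ℂ) := by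
  rw [lp.norm_eq_tsum_rpow (by norm_num), nn, Real.sqrt_eq_rpow]
  simp

theorem sq {n : ℕ} (f : E n) : Sq (f : X n → ℂ) := (mem_iff _).1 (lp.memℓp f)

/-- the subspace -/
def S (n : ℕ) (b : Bool) : Submodule ℂ (E n) where
  carrier := {f | ∀ (π : Equiv.Perm (Fin n)) (x : X n), f (fun j => x (π j)) = chi b π * f x}
  zero_mem' := by
    intro π x
    simp
  add_mem' := by
    intro f g hf hg π x
    have h1 := hf π x
    have h2 := hg π x
    simp only [lp.coeFn_add, Pi.add_apply]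
    rw [h1, h2]
    ring
  smul_mem' := by
    intro c f hf π x
    have h1 := hf π x
    simp only [lp.coeFn_smul, Pi.smul_apply, smul_eq_mul]
    rw [h1]
    ring

theorem closed_S (n : ℕ) (b : Bool) : IsClosed (S n b : Set (E n)) := by
  have e : (S n b : Set (E n)) = ⋂ (π : Equiv.Perm (Fin n)) (x : X n),
      {f : E n | f (fun j => x (π j)) = chi b π * f x} := by
    ext f
    simp only [mem_iInter]
    rfl
  rw [e]
  refine isClosed_iInter fun π => isClosed_iInter fun x => ?_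
  have hc : ∀ y : X n, Continuous fun f : E n => f y := fun y =>
    (lp.evalCLM ℂ (fun _ : X n => ℂ) 2 y).continuous
  exact isClosed_eq (hc _) (continuous_const.mul (hc _))

instance (n : ℕ) (b : Bool) : CompleteSpace (S n b) := (closed_S n b).completeSpace_coe

theorem mem_M {n : ℕ} {b : Bool} (f : S n b) : ((f : E n) : X n → ℂ) ∈ M n b :=
  ⟨sq _, f.2⟩

/-- the element of the subspace -/
def mk {n : ℕ} {b : Bool} (u : X n → ℂ) (hu : u ∈ M n b) : S n b :=
  ⟨⟨u, (mem_iff u).2 hu.1⟩, hu.2⟩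

theorem coe_mk {n : ℕ} {b : Bool} (u : X n → ℂ) (hu : u ∈ M n b) :
    ((mk u hu : E n) : X n → ℂ) = u := rfl

theorem T_zero {n : ℕ} (k : Fin n → ℤ) : T k (0 : X n → ℂ) = 0 := by
  ext y
  simp [T, W]

theorem mk_ext {n : ℕ} {b : Bool} {f g : S n b}
    (h : ∀ y, ((f : E n) : X n → ℂ) y = ((g : E n) : X n → ℂ) y) : f = g :=
  Subtype.ext (lp.ext (funext h))

/-- the restriction of `T k` -/
def TS (h2 : S_inv) {n : ℕ} (k : Fin n → ℤ) (b : Bool) : S n b →ₗ[ℂ] S n b where
  toFun f := mk (T k f) ((h2 n k b).1 _ (mem_M f))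
  map_add' := by
    intro f g
    apply mk_ext
    intro y
    have h := congrFun ((h2 n k b).2.1 (f : E n) (g : E n) 1) y
    simp only [one_mul] at h
    exact h
  map_smul' := by
    intro c f
    apply mk_ext
    intro y
    have h := congrFun ((h2 n k b).2.1 (0 : X n → ℂ) (f : E n) c) y
    simp only [T_zero, Pi.zero_apply, zero_add] at h
    exact h

theorem TS_apply (h2 : S_inv) {n : ℕ} (k : Fin n → ℤ) (b : Bool) (f : S n b) (y : X n) :
    ((TS h2 k b f : E n) : X n → ℂ) y = T k (f : E n) y := rfl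

/-- the operator -/
def A (h1 : S_bdd) (h2 : S_inv) {n : ℕ} (k : Fin n → ℤ) (b : Bool) (l : ℂ) :
    S n b →L[ℂ] S n b :=
  LinearMap.mkContinuous (l • LinearMap.id - TS h2 k b) (‖l‖ + 1) (by
    intro f
    have e : ‖TS h2 k b f‖ ≤ ‖f‖ := by
      have h := (h1 n k (f : E n) (sq _)).2
      rw [← norm_eq] at h
      refine le_trans (le_of_eq ?_) h
      exact norm_eq _
    calc ‖(l • (LinearMap.id : S n b →ₗ[ℂ] S n b) - TS h2 k b) f‖ = ‖l • f - TS h2 k b f‖ := rfl
      _ ≤ ‖l • f‖ + ‖TS h2 k b f‖ := norm_sub_le _ _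
      _ ≤ ‖l‖ * ‖f‖ + ‖f‖ := add_le_add (norm_smul_le _ _) e
      _ = (‖l‖ + 1) * ‖f‖ := by ring)

theorem A_apply (h1 : S_bdd) (h2 : S_inv) {n : ℕ} (k : Fin n → ℤ) (b : Bool) (l : ℂ) (f : S n b)
    (y : X n) : ((A h1 h2 k b l f : E n) : X n → ℂ) y = l * (f : E n) y - T k (f : E n) y := rfl

theorem inner_A (h1 : S_bdd) (h2 : S_inv) (h3 : S_fog) {n : ℕ} (k : Fin n → ℤ) (b : Bool) (l c : ℂ)
    (r : ℝ) (hr : ∀ t : Fin n → ℝ, (c * sy k t).re ≤ r) (f : S n b) :
    ((c * l).re - r) * ‖f‖ ^ 2 ≤ (c * inner ℂ f (A h1 h2 k b l f)).re := by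
  obtain ⟨hs, hle⟩ := h3 n k c r hr (f : E n) (sq _)
  have hn : ‖f‖ = nn ((f : E n) : X n → ℂ) := norm_eq _
  have hi1 : inner ℂ f (TS h2 k b f) = ∑' y, (starRingEnd ℂ) ((f : E n) y) * T k (f : E n) y := by
    rw [Submodule.coe_inner, lp.inner_eq_tsum]
    refine tsum_congr fun y => ?_
    rw [TS_apply, RCLike.inner_apply, mul_comm]
  have hi2 : inner ℂ f (A h1 h2 k b l f) = l * inner ℂ f f - inner ℂ f (TS h2 k b f) := by
    have : A h1 h2 k b l f = l • f - TS h2 k b f := rfl
    rw [this, inner_sub_right, inner_smul_right (𝕜 := ℂ) (E := S n b) f f l]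
  have hi3 : inner ℂ f f = ((‖f‖ ^ 2 : ℝ) : ℂ) := by
    rw [inner_self_eq_norm_sq_to_K (𝕜 := ℂ) (E := S n b) f]
    simp
  rw [hi2, hi3, hi1, mul_sub, Complex.sub_re, ← mul_assoc, Complex.re_mul_ofReal]
  rw [← hn] at hle
  linarith

theorem con (_h : S_bas) (h1 : S_bdd) (h2 : S_inv) (h3 : S_fog) : S_con := by
  intro n k b c r hr l hl
  by_contra hlt
  rw [not_le] at hlt
  apply hl
  have hδ : 0 < (c * l).re - r := by linarith
  set δ := (c * l).re - r with hδdef
  have key := inner_A h1 h2 h3 k b l c r hr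
  have hc : 0 < ‖c‖ := by
    rw [norm_pos_iff]
    rintro rfl
    have := hr 0
    simp at this hlt
    linarith
  have hbd : ∀ f : S n b, δ * ‖f‖ ≤ ‖c‖ * ‖A h1 h2 k b l f‖ := by
    intro f
    rcases eq_or_lt_of_le (norm_nonneg f) with h0 | h0
    · rw [← h0]; simp; positivity
    have h4 := key f
    have h5 : (c * inner ℂ f (A h1 h2 k b l f)).re ≤ ‖c‖ * (‖f‖ * ‖A h1 h2 k b l f‖) := by
      refine (Complex.re_le_norm _).trans ?_
      rw [norm_mul]
      exact mul_le_mul_of_nonneg_left (norm_inner_le_norm (𝕜 := ℂ) (E := S n b) _ _) (norm_nonneg _)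
    have h6 : ‖f‖ * (δ * ‖f‖) ≤ ‖f‖ * (‖c‖ * ‖A h1 h2 k b l f‖) := by nlinarith
    exact le_of_mul_le_mul_left h6 h0
  have hanti : AntilipschitzWith (‖c‖ / δ).toNNReal (A h1 h2 k b l) := by
    refine ContinuousLinearMap.antilipschitz_of_bound _ fun f => ?_
    rw [Real.coe_toNNReal _ (by positivity), div_mul_eq_mul_div, le_div_iff₀ hδ]
    linarith [hbd f]
  have hinj : Function.Injective (A h1 h2 k b l) := hanti.injective
  have hclosed : IsClosed (range (A h1 h2 k b l)) :=
    hanti.isClosed_range (A h1 h2 k b l).uniformContinuous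
  have hsurj : LinearMap.range (A h1 h2 k b l).toLinearMap = ⊤ := by
    have hcl : IsClosed ((LinearMap.range (A h1 h2 k b l).toLinearMap : Submodule ℂ (S n b)) : Set (S n b)) := by
      exact hclosed
    have : CompleteSpace (LinearMap.range (A h1 h2 k b l).toLinearMap : Submodule ℂ (S n b)) :=
      hcl.completeSpace_coe
    rw [← Submodule.orthogonal_eq_bot_iff]
    rw [Submodule.eq_bot_iff]
    intro w hw
    rw [Submodule.mem_orthogonal'] at hw
    have h7 := hw (A h1 h2 k b l w) ⟨w, rfl⟩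
    have h8 := key w
    rw [h7, mul_zero, Complex.zero_re] at h8
    have h9 : ‖w‖ ^ 2 ≤ 0 := by
      by_contra h10
      rw [not_le] at h10
      have := mul_pos hδ h10
      linarith
    have h11 : ‖w‖ = 0 := by nlinarith [norm_nonneg w]
    exact norm_eq_zero.1 h11
  intro v hv
  obtain ⟨f, hf⟩ : ∃ f, A h1 h2 k b l f = - mk v hv := by
    have : - mk v hv ∈ LinearMap.range (A h1 h2 k b l).toLinearMap := by rw [hsurj]; trivial
    exact this
  refine ⟨(f : E n), ⟨mem_M f, ?_⟩, ?_⟩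
  · funext y
    have h12 : ((A h1 h2 k b l f : E n) : X n → ℂ) y = - v y := by
      rw [hf]
      rfl
    rw [A_apply] at h12
    linear_combination - h12
  · rintro u ⟨hu, hu2⟩
    have h13 : A h1 h2 k b l (mk u hu) = A h1 h2 k b l f := by
      rw [hf]
      apply mk_ext
      intro y
      rw [A_apply, coe_mk]
      have := congrFun hu2 y
      change l * u y - T k u y = - v y
      linear_combination - this
    have h14 := hinj h13
    rw [← h14]
    rfl

end Pool.Agent.Q178.MTCON
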