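import Pool.Agent.Q82.QD.Stm

/-!
# Project QD (helper82), job CTL2 (helper178): control of the source
-/

set_option autoImplicit false

open MeasureTheory Filter Topology Real InnerProductSpace Laplacian Set
open Pool.Agent.Q82.QC (E Om pp lg bd pot mol Ctl HolderConv S_MASS S_POT0 S_POT3 S_POTH S_POTL S_MOL
  S_MOLI)

namespace Pool.Agent.Q82.QD

private noncomputable def ctl2_K (a N : ℝ) (x : E) : ℝ :=
  Real.exp (-(a * N ^ 10 * ‖x - x1‖ ^ 2)) + Real.exp (-N)

private theorem ctl2_cut_le_one (t : ℝ) : max 0 (min 1 t) ≤ 1 := max_le zero_le_one (min_le_left _ _)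

private theorem ctl2_cut_pos {t : ℝ} (h : max 0 (min 1 t) ≠ 0) : 0 < t := by
  by_contra hc
  push Not at hc
  exact h (max_eq_left ((min_le_right _ _).trans hc))

private theorem ctl2_PP_cont : Continuous PP := by
  unfold PP
  fun_prop

private theorem ctl2_W_cont {F : ℝ → ℝ} (hF : Continuous F) (a N : ℝ) : Continuous (W F a N) := by
  have := ctl2_PP_cont
  unfold W
  fun_prop

private theorem ctl2_B_cont {F : ℝ → ℝ} (hF : Continuous F) (N : ℝ) : Continuous (B F N) := by
  unfold B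
  fun_prop

private theorem ctl2_gg_cont {F : ℝ → ℝ} (hF : Continuous F) (a N : ℝ) : Continuous (gg F a N) := by
  have h1 := ctl2_W_cont hF a N
  have h2 := ctl2_B_cont hF N
  unfold gg chi psi
  fun_prop

private theorem ctl2_B_nonneg {F : ℝ → ℝ} {N : ℝ} (x : E) : 0 ≤ B F N x := by
  unfold B
  positivity

private theorem ctl2_gg_zero {F : ℝ → ℝ} {a N : ℝ} {x : E} (hx : x ∉ Metric.closedBall (0 : E) (5 / 3)) :
    gg F a N x = 0 := by
  have h : chi x = 0 := by
    by_contra hc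
    have h1 := ctl2_cut_pos (t := 10 - 6 * ‖x‖) hc
    apply hx
    rw [mem_closedBall_zero_iff]
    linarith
  unfold gg
  rw [h, zero_mul, zero_mul]

private theorem ctl2_ball_sub : Metric.closedBall (0 : E) (5 / 3) ⊆ Om := by
  intro x hx
  rw [mem_closedBall_zero_iff] at hx
  have h1 : ‖x 0‖ ≤ ‖x‖ := PiLp.norm_apply_le x 0
  rw [Real.norm_eq_abs] at h1
  have h2 : |x 0| < 2 := by linarith
  exact abs_lt.1 h2

private theorem ctl2_dist {x : E} (hx : x ∈ Metric.closedBall (0 : E) (5 / 3)) : ‖x - pp‖ ≤ 12 := by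
  rw [mem_closedBall_zero_iff] at hx
  have h1 : ‖pp‖ = 10 := by
    unfold Pool.Agent.Q82.QC.pp
    rw [EuclideanSpace.norm_single]
    norm_num
  have h2 := norm_sub_le x pp
  linarith

private theorem ctl2_K_pos (a N : ℝ) (x : E) : 0 < ctl2_K a N x := by
  unfold ctl2_K
  positivity

private theorem ctl2_K_le {a N : ℝ} (ha : 0 < a) (hN : 0 ≤ N) (x : E) : ctl2_K a N x ≤ 2 := by
  have e1 : Real.exp (-(a * N ^ 10 * ‖x - x1‖ ^ 2)) ≤ 1 := by
    rw [Real.exp_le_one_iff]
    have : 0 ≤ a * N ^ 10 * ‖x - x1‖ ^ 2 := by positivity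
    linarith
  have e2 : Real.exp (-N) ≤ 1 := by
    rw [Real.exp_le_one_iff]
    linarith
  unfold ctl2_K
  linarith

/-- the pointwise bound -/
private theorem ctl2_bound {F : ℝ → ℝ} {a N C : ℝ} (hC : 0 < C) (hN : 0 < N)
    (h : ∀ x : E, ‖x‖ ≤ 5 / 3 → 1 / N ^ 4 ≤ ‖x - x0‖ →
      Real.exp (4 * W F a N x) ≤ C * (Real.exp (-(a * N ^ 10 * ‖x - x1‖ ^ 2)) + Real.exp (-N)) ∧
      B F N x ≤ C * Real.exp (-N)) {x : E} (hx : x ∈ Metric.closedBall (0 : E) (5 / 3)) :
    ‖x - pp‖ * |gg F a N x| ≤ 84 * C * ctl2_K a N x := by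
  have hK := ctl2_K_pos a N x
  by_cases hg : gg F a N x = 0
  · rw [hg, abs_zero, mul_zero]
    positivity
  · have hcp : chi x * psi N x ≠ 0 := left_ne_zero_of_mul hg
    have hpsi := ctl2_cut_pos (t := N ^ 4 * ‖x - x0‖ - 1) (right_ne_zero_of_mul hcp)
    have hN4 : 0 < N ^ 4 := by positivity
    have hd : 1 / N ^ 4 ≤ ‖x - x0‖ := by
      rw [div_le_iff₀ hN4]
      linarith
    obtain ⟨b1, b2⟩ := h x (by rwa [mem_closedBall_zero_iff] at hx) hd
    have hB := ctl2_B_nonneg (F := F) (N := N) x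
    have hE : 0 < Real.exp (4 * W F a N x) := Real.exp_pos _
    have c0 : 0 ≤ chi x := le_max_left _ _
    have p0 : 0 ≤ psi N x := le_max_left _ _
    have c1 : chi x ≤ 1 := ctl2_cut_le_one _
    have p1 : psi N x ≤ 1 := ctl2_cut_le_one _
    have h1 : |gg F a N x| ≤ 6 * Real.exp (4 * W F a N x) + B F N x := by
      unfold gg
      rw [abs_mul, abs_of_nonneg (mul_nonneg c0 p0)]
      have h2 : chi x * psi N x ≤ 1 := mul_le_one₀ c1 p0 p1
      have h3 : |6 * Real.exp (4 * W F a N x) - B F N x| ≤ 6 * Real.exp (4 * W F a N x) + B F N x := by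
        rw [abs_le]
        constructor <;> linarith
      calc _ ≤ 1 * |6 * Real.exp (4 * W F a N x) - B F N x| :=
            mul_le_mul_of_nonneg_right h2 (abs_nonneg _)
        _ ≤ _ := by rw [one_mul]; exact h3
    have h4 : |gg F a N x| ≤ 7 * C * ctl2_K a N x := by
      have e1 := Real.exp_pos (-(a * N ^ 10 * ‖x - x1‖ ^ 2))
      have e3 : C * Real.exp (-N) ≤ C * ctl2_K a N x := by
        apply mul_le_mul_of_nonneg_left _ hC.le
        unfold ctl2_K
        linarith
      have e4 : Real.exp (4 * W F a N x) ≤ C * ctl2_K a N x := b1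
      linarith
    have h5 := ctl2_dist hx
    calc ‖x - pp‖ * |gg F a N x| ≤ 12 * (7 * C * ctl2_K a N x) :=
          mul_le_mul h5 h4 (abs_nonneg _) (by norm_num)
      _ = _ := by ring

/-- job CTL2 -/
theorem ctl2 (h1 : S_WB2) (h2 : S_TH2) : S_CTL2 := by
  intro F a C hD
  obtain ⟨C1, N0, hC1, hN0, hb⟩ := h1 F a C hD
  have hF : Continuous F := hD.1.1
  have ha : 0 < a := hD.2.1
  refine ⟨168 * C1, by positivity, fun δ hδ => ?_⟩
  have hlim : Tendsto (fun N : ℝ => 84 * C1 * ∫ x in Metric.closedBall (0 : E) (5 / 3),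
      (Real.exp (-(a * N ^ 10 * ‖x - x1‖ ^ 2)) + Real.exp (-N))) atTop (𝓝 (84 * C1 * 0)) :=
    (h2 a ha).const_mul _
  rw [mul_zero] at hlim
  filter_upwards [eventually_ge_atTop N0, hlim.eventually (gt_mem_nhds hδ)] with N hN hsm
  have hNp : 0 < N := by linarith
  have hbd : ∀ x ∈ Metric.closedBall (0 : E) (5 / 3), ‖x - pp‖ * |gg F a N x| ≤
      84 * C1 * ctl2_K a N x := fun x hx => ctl2_bound hC1 hNp (hb N hN) hx
  have hout : ∀ x, x ∉ Metric.closedBall (0 : E) (5 / 3) → ‖x - pp‖ * |gg F a N x| = 0 := by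
    intro x hx
    rw [ctl2_gg_zero hx, abs_zero, mul_zero]
  have hcpt : IsCompact (Metric.closedBall (0 : E) (5 / 3)) := isCompact_closedBall _ _
  refine ⟨ctl2_gg_cont hF a N, HasCompactSupport.intro hcpt fun x hx => ctl2_gg_zero hx, ?_,
    fun y => ?_, ?_⟩
  · refine (closure_minimal ?_ hcpt.isClosed).trans ctl2_ball_sub
    intro x hx
    by_contra hc
    exact hx (ctl2_gg_zero hc)
  · by_cases hy : y ∈ Metric.closedBall (0 : E) (5 / 3)
    · refine (hbd y hy).trans ?_
      have h3 := ctl2_K_le ha hNp.le y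
      calc _ ≤ 84 * C1 * 2 := mul_le_mul_of_nonneg_left h3 (by positivity)
        _ = 168 * C1 := by ring
    · rw [hout y hy]
      positivity
  · have e1 : ∫ y, ‖y - pp‖ * |gg F a N y| =
        ∫ y in Metric.closedBall (0 : E) (5 / 3), ‖y - pp‖ * |gg F a N y| :=
      (setIntegral_eq_integral_of_forall_compl_eq_zero fun x hx => hout x hx).symm
    rw [e1]
    refine le_trans ?_ hsm.le
    rw [← integral_const_mul]
    have hKc : Continuous (ctl2_K a N) := by
      unfold ctl2_K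
      fun_prop
    refine integral_mono_of_nonneg (Eventually.of_forall fun x => by positivity)
      ((hKc.continuousOn.integrableOn_compact hcpt).const_mul _) ?_
    filter_upwards [ae_restrict_mem hcpt.isClosed.measurableSet] with x hx
    exact hbd x hx

end Pool.Agent.Q82.QD
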